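import Pool.Agent.Helper10.FA.Form
import Pool.Agent.Helper90.FC.Val
import Pool.Agent.Helper90.FC.Chain

/-!
# Project FA: transgressive classes of degree two

As `Pool/Agent/Helper90/FC/Bock.lean`: translation of `exists_form_tw` to the cobar algebra with `evn_surj`, `evn_inj`, `evn_dd` and `Val.lean`
(in degrees two and three); the restriction to `F` is a cocycle by `triv_odd`.
-/

set_option linter.unusedSectionVars false
set_option autoImplicit false

open CategoryTheory CategoryTheory.Abelian CategoryTheory.Limits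
open scoped ModuleCat TensorProduct
open Pool.Agent.Helper59.FG Pool.Agent.Helper90.FC

namespace Pool.Agent.Helper10.FA

universe u

section

variable {k : Type u} [Field k]

/-- A linear form with values in the trivial module. -/
private noncomputable def bockL {A : Type u} [Ring A] [Bialgebra k A] (b : A →ₗ[k] k) :
    A →ₗ[k] trivObj k A where
  toFun x := (show trivObj k A from b x)
  map_add' x y := map_add b x y
  map_smul' c x := by
    have h1 : b (c • x) = c * b x := by rw [map_smul, smul_eq_mul]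
    refine h1.trans ?_
    change c * b x = Coalgebra.counit (R := k) (algebraMap k A c) * b x
    congr 1
    rw [Bialgebra.counit_algebraMap]

/-- A bilinear form as a cochain of degree two. -/
private noncomputable def bockC2 {A : Type u} [Ring A] [Bialgebra k A] (b : A →ₗ[k] A →ₗ[k] k) :
    Cn k 2 (trivObj k A) :=
  (mkI k (M := IM k (trivObj k A))
    { toFun := fun b₂ => mkI k (M := trivObj k A) (bockL (b.flip b₂))
      map_add' := fun x y => IM_ext k fun b₁ => (b b₁).map_add x y
      map_smul' := fun c x => IM_ext k fun b₁ => by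
        rw [RingHom.id_apply, fn_ksmul]
        have h := (bockL (b b₁)).map_smul c x
        exact h } : IM k (IM k (trivObj k A)))

/-- A trilinear form as a cochain of degree three. -/
private noncomputable def bockC3 {A : Type u} [Ring A] [Bialgebra k A]
    (y : A →ₗ[k] A →ₗ[k] A →ₗ[k] k) : Cn k 3 (trivObj k A) :=
  (mkI k (M := IM k (IM k (trivObj k A)))
    { toFun := fun b₃ => (bockC2
        { toFun := fun b₁ => (y b₁).flip b₃
          map_add' := fun _ _ => by ext; simp
          map_smul' := fun _ _ => by ext; simp })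
      map_add' := fun x x' => IM_ext k fun b₂ => IM_ext k fun b₁ => (y b₁ b₂).map_add x x'
      map_smul' := fun c x => IM_ext k fun b₂ => IM_ext k fun b₁ => by
        rw [RingHom.id_apply, fn_ksmul, fn_ksmul]
        have h := (bockL (y b₁ b₂)).map_smul c x
        exact h } : IM k (IM k (IM k (trivObj k A))))

private theorem bock_val2 {A : Type u} [Ring A] [Bialgebra k A] (b : A →ₗ[k] A →ₗ[k] k)
    (b₁ b₂ : A) : val2 (bockC2 b) b₁ b₂ = b b₁ b₂ := rfl

private theorem bock_val3 {A : Type u} [Ring A] [Bialgebra k A]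
    (y : A →ₗ[k] A →ₗ[k] A →ₗ[k] k) (b₁ b₂ b₃ : A) : val3 (bockC3 y) b₁ b₂ b₃ = y b₁ b₂ b₃ := rfl

private theorem bock_ext3 {A : Type u} [Ring A] [Bialgebra k A] (z z' : Cn k 3 (trivObj k A))
    (h : ∀ b₁ b₂ b₃, val3 z b₁ b₂ b₃ = val3 z' b₁ b₂ b₃) : z = z' :=
  IM_ext k (M := IM k (IM k (trivObj k A))) (g := z) (g' := z') fun b₃ =>
    IM_ext k fun b₂ => IM_ext k fun b₁ => h b₁ b₂ b₃

variable {F B C : Type u} [CommRing F] [Ring B] [Ring C] [HopfAlgebra k F]
variable [HopfAlgebra k B] [HopfAlgebra k C] [Module.Finite k F] [Module.Finite k B]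
  [Module.Finite k C]

theorem exists_bock_tw (p : ℕ) [Fact p.Prime] (ι : F →ₐc[k] B) (π : B →ₐc[k] C)
    (hπ : Function.Surjective π)
    (hιπ : ∀ a : F, π (ι a) = algebraMap k C (Coalgebra.counit (R := k) a)) (σ : Sect ι π)
    {n : ℕ} (c : Coords k p F n) (A : LAct ι c) (i : Fin n) :
    ∃ (X : TA k (HD k B)) (Y : TA k (HD k C)), X ∈ Tn k (HD k B) 2 ∧ Y ∈ Tn k (HD k C) 3 ∧
      dd k (HD k B) X = mapT (HDmap π : HD k C →ₗ[k] HD k B) Y ∧
      dd k (HD k F) (mapT (HDmap ι : HD k B →ₗ[k] HD k F) X) = 0 ∧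
      ∀ f g : F, val2 (evn k 2 (mapT (HDmap ι : HD k B →ₗ[k] HD k F) X)) f g =
        c.bock i f g := by
  obtain ⟨b, y, hby, hb⟩ := exists_form_tw p ι π hιπ σ c A i
  obtain ⟨X, hX, hX'⟩ := evn_surj k 2 (bockC2 b)
  obtain ⟨Y, hY, hY'⟩ := evn_surj k 3 (bockC3 y)
  have h1 : dd k (HD k B) X = mapT (HDmap π : HD k C →ₗ[k] HD k B) Y := by
    rw [← sub_eq_zero]
    apply evn_inj k 3
    · exact Submodule.sub_mem _ (dd_Tn k (HD k B) 2 X hX) (mapT_pow _ 3 Y hY)
    · rw [map_sub, sub_eq_zero, ← evn_dd]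
      apply bock_ext3
      intro b₁ b₂ b₃
      rw [val3_mapT, hX', hY', val3_dC, bock_val3]
      simp only [bock_val2]
      exact hby b₁ b₂ b₃
  have hF : Nontrivial F := by
    refine ⟨⟨0, 1, fun h => ?_⟩⟩
    have h2 : Coalgebra.counit (R := k) (0 : F) = Coalgebra.counit (R := k) (1 : F) := by rw [h]
    rw [map_zero, Bialgebra.counit_one] at h2
    exact zero_ne_one h2
  have hdY : dd k (HD k C) Y = 0 := by
    have hinj : Function.Injective (HDmap π : HD k C →ₗ[k] HD k B) := by
      intro h h' hh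
      apply WithConv.ofConv_injective
      refine LinearMap.ext fun c => ?_
      obtain ⟨b', rfl⟩ := hπ c
      have h4 := congrArg (fun g : HD k B => g.ofConv b') hh
      exact h4
    apply mapT_injective (HDmap π : HD k C →ₗ[k] HD k B) hinj
    rw [mapT_dd, ← h1, dd_dd, map_zero]
  refine ⟨X, Y, hX, hY, h1, ?_, ?_⟩
  · rw [← mapT_dd, h1]
    exact triv_odd ι π hιπ 3 (by decide) Y hY hdY
  · intro f g
    rw [val2_mapT, hX', bock_val2, hb]

end

end Pool.Agent.Helper10.FA
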