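import Pool.Agent.Helper90.FC.FRed

/-!
# Project FA, definitions: lifted actions

`F` is a truncated polynomial algebra `P / (X_1 ^ p, ..., X_n ^ p)`, `P = k[X_1, ..., X_n]`
(coordinates `c : Coords k p F n`), and a Hopf algebra with a homomorphism `ι : F → B`.
`LAct ι c` is an action of `B` on `P`, which lifts the adjoint action of `B` on `F` and is trivial
on `(X_i ^ p) / m (X_i ^ p)`.
-/

set_option linter.unusedSectionVars false
set_option autoImplicit false

open scoped TensorProduct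
open Pool.Agent.Helper90.FC

namespace Pool.Agent.Helper10.FA

universe u

/-- A lift to `P = k[X_1, ..., X_n]` of the adjoint action of `B` on the truncated polynomial algebra
`F`, with trivial action on `(X_i ^ p) / m (X_i ^ p)`:
`1 ▷ f = f`, `(b b') ▷ f = b ▷ (b' ▷ f)`, `b ▷ 1 = ε(b)`, `b ▷ (f g) = ∑ (b₁ ▷ f) (b₂ ▷ g)`,
`(b ▷ f)(0) = ε(b) f(0)`, `b ι(ev f) = ∑ ι(ev(b₁ ▷ f)) b₂`, `ev f = 0 → ev (b ▷ f) = 0`,
`ι(a) ▷ f = ε(a) f`, and the coefficients of `X_i ^ p` in `b ▷ f` and `ε(b) f` agree if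
`ev f = 0`. -/
structure LAct {k : Type u} [Field k] {F B : Type u} [CommRing F] [Ring B] [HopfAlgebra k F]
    [HopfAlgebra k B] {p : ℕ} (ι : F →ₐc[k] B) {n : ℕ} (c : Coords k p F n) where
  act : B →ₗ[k] MvPolynomial (Fin n) k →ₗ[k] MvPolynomial (Fin n) k
  one_act : ∀ f, act 1 f = f
  mul_act : ∀ b b' f, act (b * b') f = act b (act b' f)
  act_one : ∀ b, act b 1 = Coalgebra.counit (R := k) b • (1 : MvPolynomial (Fin n) k)
  act_mul : ∀ (b : B) (f g : MvPolynomial (Fin n) k), act b (f * g) =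
    TensorProduct.lift ((LinearMap.mul k (MvPolynomial (Fin n) k)).compl₁₂ (act.flip f)
      (act.flip g)) (Coalgebra.comul b)
  cst : ∀ (b : B) (f : MvPolynomial (Fin n) k), MvPolynomial.constantCoeff (act b f) =
    Coalgebra.counit (R := k) b * MvPolynomial.constantCoeff f
  comm : ∀ (b : B) (f : MvPolynomial (Fin n) k), b * ι (c.ev f) =
    TensorProduct.lift ((LinearMap.mul k B).compl₁₂
      ((ι : F →ₐ[k] B).toLinearMap ∘ₗ c.ev.toLinearMap ∘ₗ act.flip f) LinearMap.id)
      (Coalgebra.comul b)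
  ker : ∀ (b : B) (f : MvPolynomial (Fin n) k), c.ev f = 0 → c.ev (act b f) = 0
  triv : ∀ (a : F) (f : MvPolynomial (Fin n) k), act (ι a) f = Coalgebra.counit (R := k) a • f
  lam : ∀ (b : B) (i : Fin n) (f : MvPolynomial (Fin n) k), c.ev f = 0 →
    lam p i (act b f) = Coalgebra.counit (R := k) b * lam p i f

end Pool.Agent.Helper10.FA
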