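import Pool.Agent.Helper90.FC.GrpA

/-!
# Project FA: the Bockstein classes of a truncated polynomial algebra `k[X]/(X_i ^ q)`

`F` has coordinates `c : Coords k q F n`, `q = p ^ s`, `s ≥ 1`; as an augmented algebra it is the
group algebra of `(ℤ/q)^n` (`g_i ↦ 1 + x_i`, `(1 + x_i)^q = 1`). The classes of degree two generate
the cohomology eventually.
-/

set_option linter.unusedSectionVars false
set_option autoImplicit false

open CategoryTheory CategoryTheory.Abelian CategoryTheory.Limits
open scoped ModuleCat TensorProduct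
open Pool.Agent.Helper59.FG Pool.Agent.Helper90.FC

namespace Pool.Agent.Helper10.FA

universe u

section

variable {k : Type u} [Field k]

/-- the hom of `ℤ/q` given by an element `u` with `u ^ p = 1` -/
private noncomputable def qEv_hom (p : ℕ) {M : Type*} [CommGroup M] (u : M) (hu : u ^ p = 1) :
    Multiplicative (ZMod p) →* M :=
  AddMonoidHom.toMultiplicativeLeft (ZMod.lift p ⟨zmultiplesHom (Additive M) (Additive.ofMul u), by
    change (p : ℤ) • Additive.ofMul u = 0
    rw [natCast_zsmul, ← ofMul_pow, hu, ofMul_one]⟩)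

private theorem qEv_hom_int (p : ℕ) {M : Type*} [CommGroup M] (u : M) (hu : u ^ p = 1) (m : ℤ) :
    qEv_hom p u hu (Multiplicative.ofAdd (m : ZMod p)) = u ^ m := by
  change Additive.toMul (ZMod.lift p _ (m : ZMod p)) = u ^ m
  rw [ZMod.lift_coe]
  rfl

theorem exists_psi_q (q : ℕ) [NeZero q] {F : Type u} [CommRing F]
    [HopfAlgebra k F] [Module.Finite k F] {n : ℕ} (c : Coords k q F n)
    (hpow : ∀ i, (1 + c.x i) ^ q = 1) :
    ∃ ψ : GA k q n →ₐ[k] F, Aug ψ ∧ Function.Bijective ψ ∧
      ∀ i, ψ (gen' k q i) = 1 + c.x i := by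
  let U : Fin n → Fˣ := fun i => Units.ofPowEqOne (1 + c.x i) q (hpow i) (NeZero.ne q)
  have hUval : ∀ i, (U i : F) = 1 + c.x i := fun i => rfl
  have hU : ∀ i, U i ^ q = 1 := fun i => Units.ext (hpow i)
  let H : ULift.{u} (Fin n → Multiplicative (ZMod q)) →* Fˣ :=
    { toFun := fun g => ∏ i, qEv_hom q (U i) (hU i) (g.down i)
      map_one' := by
        refine Finset.prod_eq_one fun i _ => ?_
        exact map_one _
      map_mul' := fun g g' => by
        rw [← Finset.prod_mul_distrib]
        refine Finset.prod_congr rfl fun i _ => ?_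
        exact map_mul _ _ _ }
  let ψ : GA k q n →ₐ[k] F := MonoidAlgebra.lift k F _ ((Units.coeHom F).comp H)
  have hψ : ∀ g r, ψ (MonoidAlgebra.single g r) = r • (H g : F) := fun g r =>
    MonoidAlgebra.lift_single _ _ _
  have hgen : ∀ i, ψ (gen' k q i) = 1 + c.x i := by
    intro i
    rw [gen', hψ, one_smul, ← hUval i]
    congr 1
    change ∏ j, qEv_hom q (U j) (hU j) ((Pi.mulSingle i (Multiplicative.ofAdd 1) :
      Fin n → Multiplicative (ZMod q)) j) = U i
    rw [Finset.prod_eq_single i]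
    · rw [Pi.mulSingle_eq_same]
      have h2 := qEv_hom_int q (U i) (hU i) 1
      rw [Int.cast_one, zpow_one] at h2
      exact h2
    · intro j _ hj
      rw [Pi.mulSingle_eq_of_ne hj, map_one]
    · intro h
      exact absurd (Finset.mem_univ i) h
  refine ⟨ψ, ?_, ?_, hgen⟩
  · -- augmentation
    let ε : F →ₐ[k] k := Bialgebra.counitAlgHom k F
    have hε : ∀ i, Units.map (ε : F →* k) (U i) = 1 := by
      intro i
      apply Units.ext
      change Coalgebra.counit (R := k) (1 + c.x i) = 1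
      rw [map_add, c.aug, Bialgebra.counit_one, add_zero]
    have hH : ∀ g, Coalgebra.counit (R := k) ((H g : Fˣ) : F) = 1 := by
      intro g
      have h3 : Units.map (ε : F →* k) (H g) = 1 := by
        change Units.map (ε : F →* k) (∏ i, qEv_hom q (U i) (hU i) (g.down i)) = 1
        rw [map_prod]
        refine Finset.prod_eq_one fun i _ => ?_
        obtain ⟨m, hm⟩ := ZMod.intCast_surjective (Multiplicative.toAdd (g.down i))
        have h4 : g.down i = Multiplicative.ofAdd ((m : ℤ) : ZMod q) := by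
          rw [hm]; rfl
        rw [h4, qEv_hom_int, map_zpow, hε, one_zpow]
      exact congrArg Units.val h3
    intro a
    have h5 : ε.comp ψ = Bialgebra.counitAlgHom k (GA k q n) := by
      apply MonoidAlgebra.algHom_ext
      · intro g
        change Coalgebra.counit (R := k) (ψ (MonoidAlgebra.single g 1)) =
          Coalgebra.counit (R := k) (MonoidAlgebra.single g (1 : k))
        rw [hψ, one_smul, hH, MonoidAlgebra.counit_single]
        rfl
      · exact Subsingleton.elim _ _
    exact congr($h5 a)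
  · -- bijectivity
    have hsurj : Function.Surjective ψ := by
      rw [← AlgHom.range_eq_top, eq_top_iff]
      have hx : ∀ i, c.x i ∈ ψ.range := by
        intro i
        refine ⟨gen' k q i - 1, ?_⟩
        change ψ (gen' k q i - 1) = c.x i
        rw [map_sub, hgen, map_one, add_sub_cancel_left]
      intro a _
      rw [← c.basis.sum_repr a]
      refine Subalgebra.sum_mem _ fun α _ => Subalgebra.smul_mem _ ?_ _
      rw [c.basis_eq]
      exact Subalgebra.prod_mem _ fun i _ => Subalgebra.pow_mem _ (hx i) _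
    have hfr : Module.finrank k (GA k q n) = Module.finrank k F := by
      rw [Module.finrank_eq_card_basis c.basis,
        (MonoidAlgebra.coeffLinearEquiv k (S := k)
          (M := ULift.{u} (Fin n → Multiplicative (ZMod q)))).finrank_eq,
        Module.finrank_finsupp_self]
      simp [ZMod.card]
    have hinj : Function.Injective ψ.toLinearMap :=
      (LinearMap.injective_iff_surjective_of_finrank_eq_finrank hfr).2 hsurj
    exact ⟨hinj, hsurj⟩


/-- Every nonzero element of a truncated polynomial algebra divides the socle element. -/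
private theorem grpEv_socle {p : ℕ} {F : Type u} [CommRing F] [Bialgebra k F]
    {n : ℕ} (c : Coords k p F n) (f : F) (hf : f ≠ 0) :
    ∃ g : F, g * f = ∏ i, c.x i ^ (p - 1) := by
  classical
  set r := c.basis.repr f with hr
  have h0 : r ≠ 0 := fun h => hf ((LinearEquiv.map_eq_zero_iff _).1 h)
  obtain ⟨α, hα⟩ := Finset.exists_minimal (Finsupp.support_nonempty_iff.2 h0)
  have hα0 : r α ≠ 0 := Finsupp.mem_support_iff.1 hα.1
  have hsum : f = ∑ β, r β • ∏ i, c.x i ^ (β i : ℕ) := by
    have h1 := c.basis.sum_repr f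
    refine h1.symm.trans (Finset.sum_congr rfl fun β _ => ?_)
    rw [c.basis_eq]
  have key : ∀ β, β ≠ α → r β • ((∏ i, c.x i ^ (p - 1 - (α i : ℕ))) *
      ∏ i, c.x i ^ (β i : ℕ)) = 0 := by
    intro β hβ
    by_cases hb : r β = 0
    · rw [hb, zero_smul]
    · have h2 : ¬ β ≤ α := fun hle =>
        hβ (le_antisymm hle (hα.2 (Finsupp.mem_support_iff.2 hb) hle))
      rw [Pi.le_def, not_forall] at h2
      obtain ⟨i, hi⟩ := h2
      rw [← Finset.prod_mul_distrib, Finset.prod_eq_zero (Finset.mem_univ i), smul_zero]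
      rw [← pow_add]
      have h3 : p ≤ p - 1 - (α i : ℕ) + (β i : ℕ) := by
        have h4 := (α i).2
        have h5 : (α i : ℕ) < (β i : ℕ) := not_le.1 hi
        omega
      rw [← Nat.sub_add_cancel h3, pow_add, c.pow, mul_zero]
  have h1 : (∏ i, c.x i ^ (p - 1 - (α i : ℕ))) * f = r α • ∏ i, c.x i ^ (p - 1) := by
    calc (∏ i, c.x i ^ (p - 1 - (α i : ℕ))) * f
        = (∏ i, c.x i ^ (p - 1 - (α i : ℕ))) * ∑ β, r β • ∏ i, c.x i ^ (β i : ℕ) := by
          rw [← hsum]
      _ = ∑ β, r β • ((∏ i, c.x i ^ (p - 1 - (α i : ℕ))) * ∏ i, c.x i ^ (β i : ℕ)) := by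
          rw [Finset.mul_sum]
          exact Finset.sum_congr rfl fun β _ => by rw [mul_smul_comm]
      _ = r α • ((∏ i, c.x i ^ (p - 1 - (α i : ℕ))) * ∏ i, c.x i ^ (α i : ℕ)) :=
          Finset.sum_eq_single α (fun β _ hβ => key β hβ)
            (fun h => absurd (Finset.mem_univ α) h)
      _ = r α • ∏ i, c.x i ^ (p - 1) := by
          rw [← Finset.prod_mul_distrib]
          congr 1
          refine Finset.prod_congr rfl fun i _ => ?_
          rw [← pow_add, Nat.sub_add_cancel]
          have h4 := (α i).2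
          omega
  refine ⟨(r α)⁻¹ • ∏ i, c.x i ^ (p - 1 - (α i : ℕ)), ?_⟩
  rw [smul_mul_assoc, h1, smul_smul, inv_mul_cancel₀ hα0, one_smul]

private theorem grpEv_tmul_ne {V W : Type u} [AddCommGroup V] [AddCommGroup W] [Module k V]
    [Module k W] {v : V} {w : W} (hv : v ≠ 0) (hw : w ≠ 0) : v ⊗ₜ[k] w ≠ 0 := by
  intro h
  have h1 : ¬ ∀ f : Module.Dual k V, f v = 0 := fun h => hv ((Module.forall_dual_apply_eq_zero_iff k v).1 h)
  have h2 : ¬ ∀ f : Module.Dual k W, f w = 0 := fun h => hw ((Module.forall_dual_apply_eq_zero_iff k w).1 h)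
  push Not at h1 h2
  obtain ⟨f, hf⟩ := h1
  obtain ⟨g, hg⟩ := h2
  have h3 : (TensorProduct.lid k k) (TensorProduct.map f g (v ⊗ₜ[k] w)) = 0 := by
    rw [h, map_zero, map_zero]
  rw [TensorProduct.map_tmul, TensorProduct.lid_tmul, smul_eq_mul] at h3
  exact (mul_ne_zero hf hg) h3

section Act

variable {R : Type u} [Ring R] [Bialgebra k R]

/-- Pure tensors. -/
private noncomputable def grpEvT (X Y : ModuleCat.{u} R) (x : X) (y : Y) :
    (tensFunctor k Y).obj X :=
  (show TT k X Y from (x ⊗ₜ[k] y : X ⊗[k] Y))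

private noncomputable def grpEvEquiv (X Y : ModuleCat.{u} R) :
    X ⊗[k] Y ≃ₗ[k] ((tensFunctor k Y).obj X : Type u) where
  toFun z := (show TT k X Y from z)
  invFun z := (show TT k X Y from z)
  map_add' _ _ := rfl
  map_smul' c z := by
    have h : tact k X Y (algebraMap k R c) = algebraMap k _ c := (tact k X Y).commutes c
    exact congr($h.symm z)
  left_inv _ := rfl
  right_inv _ := rfl

private theorem grpEvEquiv_tmul (X Y : ModuleCat.{u} R) (x : X) (y : Y) :
    grpEvEquiv X Y (x ⊗ₜ[k] y) = grpEvT X Y x y := rfl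

private theorem grpEv_act (X Y : ModuleCat.{u} R) (g : R)
    (hg : Coalgebra.comul (R := k) g = g ⊗ₜ[k] g) (x : X) (y : Y) :
    g • grpEvT (k := k) X Y x y = grpEvT X Y (g • x) (g • y) := by
  change (Module.endTensorEndAlgHom (R := k) (S := k) (A := k) (M := X)
      (N := Y)) (Algebra.TensorProduct.map _ _ (Coalgebra.comul g)) (x ⊗ₜ[k] y) = _
  rw [tact_tmul, hg]
  rfl

private theorem grpEv_act' (X Y : ModuleCat.{u} R) (g : R)
    (hg : Coalgebra.comul (R := k) (1 + g) = (1 + g) ⊗ₜ[k] (1 + g)) (x : X) (y : Y) :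
    g • grpEvT (k := k) X Y x y =
      grpEvT X Y ((1 + g) • x) ((1 + g) • y) - grpEvT X Y x y := by
  rw [← grpEv_act X Y _ hg, add_smul, one_smul, add_sub_cancel_left]

end Act

private theorem grpEv_core {R : Type u} [CommRing R] [HopfAlgebra k R] [Module.Finite k R]
    {p n : ℕ} (X : Fin n → R)
    (hX : ∀ i, Coalgebra.comul (R := k) (1 + X i) = (1 + X i) ⊗ₜ[k] (1 + X i))
    (hs : ∀ r : R, r ≠ 0 → ∃ r', r' * r = ∏ i, X i ^ (p - 1))
    (hd : Module.finrank k R = p ^ n) (ζ : Fam k R (Fin n)) (W : Fin n → ModuleCat.{u} R)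
    (hfin : ∀ i, Module.Finite k (W i)) (hW : ∀ i j, j ≠ i → ∀ w : W i, X j • w = 0)
    (w₀ : ∀ i, W i) (hw₀ : ∀ i, X i ^ (p - 1) • w₀ i ≠ 0)
    (hfr : ∀ i, Module.finrank k (W i) = p)
    (hζ : ∀ (i : Fin n) (Y : ModuleCat.{u} R), Module.Finite R Y →
      ζ.EvGen ((tensFunctor k Y).obj (W i)) → ζ.EvGen Y)
    (d : ℕ) : ∀ (m : ℕ) (_ : m + d = n) (Y : ModuleCat.{u} R) (_ : Module.Finite R Y)
    (_ : Module.finrank k Y = p ^ m) (_ : ∀ i : Fin n, m ≤ i → ∀ y : Y, X i • y = 0)
    (v : Y) (_ : (∏ i ∈ Finset.univ.filter (fun i : Fin n => (i : ℕ) < m), X i ^ (p - 1)) • v ≠ 0), ζ.EvGen Y := by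
  induction d with
  | zero =>
    intro m hm Y hY hYd _ v hv
    have hm' : m = n := by omega
    subst hm'
    have hfull : (∏ i ∈ Finset.univ.filter (fun i : Fin m => (i : ℕ) < m), X i ^ (p - 1)) = ∏ i, X i ^ (p - 1) := by
      rw [Finset.filter_true_of_mem fun i _ => i.2]
    rw [hfull] at hv
    have : Module.Finite k Y := Module.Finite.trans R Y
    let f : R →ₗ[R] Y := LinearMap.toSpanSingleton R Y v
    have hinj : Function.Injective f := by
      rw [injective_iff_map_eq_zero]
      intro r hr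
      by_contra hr0
      obtain ⟨r', hr'⟩ := hs r hr0
      apply hv
      rw [← hr', mul_smul]
      have h1 : r • v = 0 := hr
      rw [h1, smul_zero]
    have hsurj : Function.Surjective f :=
      (LinearMap.injective_iff_surjective_of_finrank_eq_finrank
        (f := f.restrictScalars k) (hd.trans hYd.symm)).1 hinj
    have hI : Module.Injective R Y :=
      inj_of_equiv (self_injective k R) (LinearEquiv.ofBijective f ⟨hinj, hsurj⟩)
    have hI' : CategoryTheory.Injective Y := Module.injective_object_of_injective_module R Y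
    refine ζ.evGen_of_vanish ⟨1, fun j hj x => ?_⟩
    obtain ⟨j', rfl⟩ := Nat.exists_eq_succ_of_ne_zero (Nat.one_le_iff_ne_zero.1 hj)
    exact Ext.eq_zero_of_injective x
  | succ d ih =>
    intro m hm Y hY hYd hY0 v hv
    have hmn : m < n := by omega
    have hYk : Module.Finite k Y := Module.Finite.trans R Y
    set i₀ : Fin n := ⟨m, hmn⟩ with hi₀
    have hWk : Module.Finite k (W i₀) := hfin i₀
    have hTk : Module.Finite k ((tensFunctor k Y).obj (W i₀) : Type u) :=
      Module.Finite.equiv (grpEvEquiv (W i₀) Y)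
    have hTR : Module.Finite R ((tensFunctor k Y).obj (W i₀) : Type u) :=
      Module.Finite.of_restrictScalars_finite k R _
    -- the actions
    have hlow : ∀ j : Fin n, j ≠ i₀ → ∀ (w : W i₀) (y : Y),
        X j • grpEvT (k := k) (W i₀) Y w y = grpEvT (W i₀) Y w (X j • y) := by
      intro j hj w y
      rw [grpEv_act' _ _ _ (hX j), add_smul, one_smul, hW i₀ j hj, add_zero, add_smul, one_smul]
      have h1 : grpEvT (k := k) (W i₀) Y w (y + X j • y) =
          grpEvT (W i₀) Y w y + grpEvT (W i₀) Y w (X j • y) :=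
        TensorProduct.tmul_add w y (X j • y)
      rw [h1, add_sub_cancel_left]
    have hmid : ∀ (w : W i₀) (y : Y),
        X i₀ • grpEvT (k := k) (W i₀) Y w y = grpEvT (W i₀) Y (X i₀ • w) y := by
      intro w y
      rw [grpEv_act' _ _ _ (hX i₀), add_smul, one_smul, add_smul, one_smul,
        hY0 i₀ (le_refl m), add_zero]
      have h1 : grpEvT (k := k) (W i₀) Y (w + X i₀ • w) y =
          grpEvT (W i₀) Y w y + grpEvT (W i₀) Y (X i₀ • w) y :=
        TensorProduct.add_tmul w (X i₀ • w) y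
      rw [h1, add_sub_cancel_left]
    have hmid' : ∀ (a : ℕ) (w : W i₀) (y : Y),
        X i₀ ^ a • grpEvT (k := k) (W i₀) Y w y = grpEvT (W i₀) Y (X i₀ ^ a • w) y := by
      intro a
      induction a with
      | zero => intro w y; simp only [pow_zero, one_smul]
      | succ a iha =>
        intro w y
        rw [pow_succ, mul_smul, hmid, iha, mul_smul]
    refine hζ i₀ Y hY (ih (m + 1) (by omega) _ hTR ?_ ?_ (grpEvT (W i₀) Y (w₀ i₀) v) ?_)
    · rw [← (grpEvEquiv (k := k) (W i₀) Y).finrank_eq, Module.finrank_tensorProduct, hfr, hYd,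
        pow_succ']
    · intro j hj z
      have hj1 : j ≠ i₀ := by
        intro h
        rw [h] at hj
        exact absurd hj (by simp [hi₀])
      obtain ⟨z', rfl⟩ := (grpEvEquiv (k := k) (W i₀) Y).surjective z
      induction z' using TensorProduct.induction_on with
      | zero => rw [map_zero, smul_zero]
      | add s t hs' ht => rw [map_add, smul_add, hs', ht, add_zero]
      | tmul w y =>
        rw [grpEvEquiv_tmul, hlow j hj1, hY0 j (by omega)]
        exact TensorProduct.tmul_zero Y w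
    · have h1 : (∏ i ∈ Finset.univ.filter (fun i : Fin n => (i : ℕ) < m + 1), X i ^ (p - 1)) =
          X i₀ ^ (p - 1) * ∏ i ∈ Finset.univ.filter (fun i : Fin n => (i : ℕ) < m), X i ^ (p - 1) := by
        have h2 : (Finset.univ.filter fun i : Fin n => (i : ℕ) < m + 1) =
            insert i₀ (Finset.univ.filter fun i : Fin n => (i : ℕ) < m) := by
          ext i
          simp only [Finset.mem_filter, Finset.mem_univ, true_and, Finset.mem_insert, hi₀,
            Fin.ext_iff]
          omega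
        rw [h2, Finset.prod_insert]
        simp [hi₀]
      have h2 : ∀ (s : Finset (Fin n)) (_ : i₀ ∉ s) (w : W i₀) (y : Y),
          (∏ i ∈ s, X i ^ (p - 1)) • grpEvT (k := k) (W i₀) Y w y =
            grpEvT (W i₀) Y w ((∏ i ∈ s, X i ^ (p - 1)) • y) := by
        intro s hs0 w
        refine Finset.prod_induction (fun i => X i ^ (p - 1))
          (fun r => ∀ y : Y, r • grpEvT (k := k) (W i₀) Y w y = grpEvT (W i₀) Y w (r • y))
          ?_ ?_ ?_
        · intro a b ha hb y
          rw [mul_smul, hb, ha, mul_smul]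
        · intro y
          rw [one_smul, one_smul]
        · intro i hi
          have hii : i ≠ i₀ := fun h => hs0 (h ▸ hi)
          generalize p - 1 = a
          induction a with
          | zero => intro y; simp only [pow_zero, one_smul]
          | succ a iha =>
            intro y
            rw [pow_succ, mul_smul, hlow i hii, iha, mul_smul]
      rw [h1, mul_smul, h2 _ (by simp [hi₀]), hmid']
      intro h3
      have h4 : (X i₀ ^ (p - 1) • w₀ i₀) ⊗ₜ[k]
          ((∏ i ∈ Finset.univ.filter (fun i : Fin n => (i : ℕ) < m), X i ^ (p - 1)) • v) = 0 := h3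
      exact grpEv_tmul_ne (hw₀ i₀) hv h4

/-- The restriction functor is the identity on underlying vector spaces. -/
private noncomputable def grpEvRes {A B : Type u} [Ring A] [Ring B] [Bialgebra k A]
    [Bialgebra k B] (φ : A →ₐ[k] B) (M : ModuleCat.{u} B) :
    M ≃ₗ[k] ((res φ).obj M : Type u) where
  toFun m := m
  invFun m := m
  map_add' _ _ := rfl
  map_smul' c m := by
    change algebraMap k B c • m = φ (algebraMap k A c) • m
    rw [AlgHom.commutes]
  left_inv _ := rfl
  right_inv _ := rfl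

private theorem grpEv_res_smul {A B : Type u} [Ring A] [Ring B] [Bialgebra k A]
    [Bialgebra k B] (φ : A →ₐ[k] B) (M : ModuleCat.{u} B) (a : A) (m : M) :
    a • grpEvRes φ M m = grpEvRes φ M (φ a • m) := rfl

/-- The underlying vector space of the trivial module. -/
private noncomputable def grpEvTriv (A : Type u) [Ring A] [Bialgebra k A] :
    k ≃ₗ[k] (trivObj k A : Type u) where
  toFun m := (show trivObj k A from m)
  invFun m := (show k from m)
  map_add' _ _ := rfl
  map_smul' c m := by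
    change c * m = Bialgebra.counitAlgHom k A (algebraMap k A c) * m
    rw [AlgHom.commutes]
    rfl
  left_inv _ := rfl
  right_inv _ := rfl

section Climb

variable {A B : Type u} [Ring A] [Ring B] [HopfAlgebra k A] [Bialgebra k B]
variable [Module.Finite k A] [Module.Finite k B]

/-- `climb2` for the restriction of two extensions. -/
private theorem grpEv_climb {ι : Type} [Finite ι] (φ : A →ₐ[k] B) (hφ : Aug φ)
    (ζ : Fam k B ι) (i₀ : ι) (W W' : ModuleCat.{u} B) [Module.Finite B W] [Module.Finite B W']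
    (i₁ : trivObj k B ⟶ W) (p₁ : W ⟶ W') (w₁ : i₁ ≫ p₁ = 0)
    (s₁ : (ShortComplex.mk i₁ p₁ w₁).ShortExact)
    (i₂ : W' ⟶ W) (p₂ : W ⟶ trivObj k B) (w₂ : i₂ ≫ p₂ = 0)
    (s₂ : (ShortComplex.mk i₂ p₂ w₂).ShortExact) (hd : 1 + 1 = ζ.deg i₀)
    (hc : s₂.extClass.comp s₁.extClass hd = ζ.cls i₀) (Y : ModuleCat.{u} A)
    (_ : Module.Finite A Y)
    (h : (ζ.res φ hφ).EvGen ((tensFunctor k Y).obj ((res φ).obj W))) :
    (ζ.res φ hφ).EvGen Y := by
  have hfin : ∀ M : ModuleCat.{u} B, Module.Finite B M → Module.Finite A ((res φ).obj M) := by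
    intro M _
    have h1 : Module.Finite k M := Module.Finite.trans B M
    have h2 : Module.Finite k ((res φ).obj M : Type u) := Module.Finite.equiv (grpEvRes φ M)
    exact Module.Finite.of_restrictScalars_finite k A _
  have hW := hfin W inferInstance
  have hW' := hfin W' inferInstance
  -- the first extension
  have e₁ : (ShortComplex.mk ((res φ).map i₁) ((res φ).map p₁)
      (by rw [← Functor.map_comp, w₁, Functor.map_zero])).ShortExact :=
    s₁.map_of_exact (res φ)
  have e₂ : (ShortComplex.mk ((res φ).map i₂) ((res φ).map p₂)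
      (by rw [← Functor.map_comp, w₂, Functor.map_zero])).ShortExact :=
    s₂.map_of_exact (res φ)
  have v₁ : (resTriv φ hφ ≫ (res φ).map i₁) ≫ (res φ).map p₁ = 0 := by
    rw [Category.assoc, ← Functor.map_comp, w₁, Functor.map_zero, comp_zero]
  have v₂ : (res φ).map i₂ ≫ ((res φ).map p₂ ≫ inv (resTriv φ hφ)) = 0 := by
    rw [← Category.assoc, ← Functor.map_comp, w₂, Functor.map_zero, zero_comp]
  let α₁ : ShortComplex.mk (resTriv φ hφ ≫ (res φ).map i₁) ((res φ).map p₁) v₁ ⟶
      ShortComplex.mk ((res φ).map i₁) ((res φ).map p₁)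
        (by rw [← Functor.map_comp, w₁, Functor.map_zero]) :=
    { τ₁ := resTriv φ hφ
      τ₂ := 𝟙 _
      τ₃ := 𝟙 _ }
  let α₂ : ShortComplex.mk ((res φ).map i₂) ((res φ).map p₂)
        (by rw [← Functor.map_comp, w₂, Functor.map_zero]) ⟶
      ShortComplex.mk ((res φ).map i₂) ((res φ).map p₂ ≫ inv (resTriv φ hφ)) v₂ :=
    { τ₁ := 𝟙 _
      τ₂ := 𝟙 _
      τ₃ := inv (resTriv φ hφ) }
  have f₁ : (ShortComplex.mk (resTriv φ hφ ≫ (res φ).map i₁) ((res φ).map p₁) v₁).ShortExact := by
    have : IsIso α₁.τ₁ := resTriv_iso φ hφ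
    have : IsIso α₁ := ShortComplex.isIso_of_isIso α₁
    exact ShortComplex.shortExact_of_iso (asIso α₁).symm e₁
  have f₂ : (ShortComplex.mk ((res φ).map i₂) ((res φ).map p₂ ≫ inv (resTriv φ hφ))
      v₂).ShortExact := by
    have : IsIso α₂ := ShortComplex.isIso_of_isIso α₂
    exact ShortComplex.shortExact_of_iso (asIso α₂) e₂
  have g₁ : f₁.extClass = e₁.extClass.comp (Ext.mk₀ (inv (resTriv φ hφ))) (add_zero 1) := by
    have h1 := ShortComplex.ShortExact.extClass_naturality f₁ e₁ α₁
    have h2 : (Ext.mk₀ α₁.τ₃).comp e₁.extClass (zero_add 1) = e₁.extClass :=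
      Ext.mk₀_id_comp _
    rw [h2] at h1
    rw [← h1, Ext.comp_assoc_of_third_deg_zero, Ext.mk₀_comp_mk₀]
    have h3 : α₁.τ₁ ≫ inv (resTriv φ hφ) = 𝟙 _ := IsIso.hom_inv_id _
    rw [h3, Ext.comp_mk₀_id]
  have g₂ : f₂.extClass = (Ext.mk₀ (resTriv φ hφ)).comp e₂.extClass (zero_add 1) := by
    have h1 := ShortComplex.ShortExact.extClass_naturality e₂ f₂ α₂
    have h2 : e₂.extClass.comp (Ext.mk₀ α₂.τ₁) (add_zero 1) = e₂.extClass :=
      Ext.comp_mk₀_id _
    rw [h2] at h1
    rw [h1, Ext.mk₀_comp_mk₀_assoc]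
    have h3 : resTriv φ hφ ≫ α₂.τ₃ = 𝟙 _ := IsIso.hom_inv_id _
    rw [h3, Ext.mk₀_id_comp]
  have hd' : 1 + 1 = (ζ.res φ hφ).deg i₀ := hd
  refine climb2 (ζ.res φ hφ) i₀ ((res φ).obj W) ((res φ).obj W') ((res φ).obj W)
    (resTriv φ hφ ≫ (res φ).map i₁) ((res φ).map p₁) v₁ f₁ ((res φ).map i₂)
    ((res φ).map p₂ ≫ inv (resTriv φ hφ)) v₂ f₂ hd' ?_ Y h h
  change _ = rsE φ hφ (ζ.cls i₀)
  rw [← hc, rsE, rs, Ext.mapExactFunctor_comp, Ext.mapExactFunctor_extClass,
    Ext.mapExactFunctor_extClass, g₁, g₂]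
  have h9 : (e₂.extClass.comp e₁.extClass hd).comp (Ext.mk₀ (inv (resTriv φ hφ)))
      (add_zero _) = e₂.extClass.comp (e₁.extClass.comp (Ext.mk₀ (inv (resTriv φ hφ)))
        (add_zero 1)) hd := Ext.comp_assoc_of_third_deg_zero _ _ _ _
  have h10 := Ext.comp_assoc (Ext.mk₀ (resTriv φ hφ)) e₂.extClass
    (e₁.extClass.comp (Ext.mk₀ (inv (resTriv φ hφ))) (add_zero 1)) (zero_add 1) hd
    (show 0 + 1 + 1 = ζ.deg i₀ from hd)
  refine h10.trans ?_
  rw [← h9]
  exact (Ext.comp_assoc_of_third_deg_zero (Ext.mk₀ (resTriv φ hφ))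
    (e₂.extClass.comp e₁.extClass hd) (Ext.mk₀ (inv (resTriv φ hφ))) (zero_add _)).symm

end Climb

theorem evGen_bock_gen (q : ℕ) [NeZero q] {F : Type u} [CommRing F]
    [HopfAlgebra k F] [Module.Finite k F] {n : ℕ} (c : Coords k q F n)
    (hpow : ∀ i, (1 + c.x i) ^ q = 1)
    (D : ∀ i, VData q c i) : (fam2 fun i => (D i).cl).EvGen (trivObj k F) := by
  classical
  have hq : 0 < q := Nat.pos_of_ne_zero (NeZero.ne q)
  obtain ⟨ψ, hψ, hb, hgen⟩ := exists_psi_q q c hpow
  let e : GA k q n ≃ₐ[k] F := AlgEquiv.ofBijective ψ hb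
  have hfinR : Module.Finite k (GA k q n) := Module.Finite.equiv e.symm.toLinearEquiv
  refine evGen_of_res ψ hψ hb _ ?_
  let X : Fin n → GA k q n := fun i => gen' k q i - 1
  have hX1 : ∀ i, 1 + X i = gen' k q i := fun i => add_sub_cancel _ _
  have hψX : ∀ i, ψ (X i) = c.x i := by
    intro i
    change ψ (gen' k q i - 1) = _
    rw [map_sub, map_one, hgen, add_sub_cancel_left]
  have hX : ∀ i, Coalgebra.comul (R := k) (1 + X i) = (1 + X i) ⊗ₜ[k] (1 + X i) := by
    intro i
    rw [hX1, gen', MonoidAlgebra.comul_single, CommSemiring.comul_apply,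
      TensorProduct.map_tmul]
    rfl
  have hcu : ∀ i, Coalgebra.counit (R := k) (X i) = 0 := by
    intro i
    rw [← hψ, hψX, c.aug]
  have hs : ∀ r : GA k q n, r ≠ 0 → ∃ r', r' * r = ∏ i, X i ^ (q - 1) := by
    intro r hr
    obtain ⟨g, hg⟩ := grpEv_socle c (ψ r) (fun h => hr (hb.1 (h.trans (map_zero ψ).symm)))
    obtain ⟨r', rfl⟩ := hb.2 g
    refine ⟨r', hb.1 ?_⟩
    rw [map_mul, hg, map_prod]
    exact Finset.prod_congr rfl fun i _ => by rw [map_pow, hψX]
  have hd : Module.finrank k (GA k q n) = q ^ n := by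
    rw [e.toLinearEquiv.finrank_eq, Module.finrank_eq_card_basis c.basis]
    simp
  have hWk : ∀ i, Module.Finite k (D i).W := fun i => Module.Finite.of_basis (D i).isW.basis
  have hWF : ∀ i, Module.Finite F (D i).W := fun i =>
    Module.Finite.of_restrictScalars_finite k F _
  have hTk : Module.Finite k (trivObj k (GA k q n)) := Module.Finite.equiv (grpEvTriv _)
  refine grpEv_core X hX hs hd _ (fun i => (res ψ).obj (D i).W)
    (fun i => Module.Finite.equiv (grpEvRes ψ (D i).W)) ?_
    (fun i => grpEvRes ψ (D i).W ((D i).isW.e 0)) ?_ ?_ ?_ n 0 (zero_add n) _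
    (Module.Finite.of_restrictScalars_finite k _ _) ?_ ?_ (grpEvTriv _ 1) ?_
  · intro i j hj w
    obtain ⟨w, rfl⟩ := (grpEvRes ψ (D i).W).surjective w
    rw [grpEv_res_smul, hψX, ← (D i).isW.basis.sum_repr w, Finset.smul_sum]
    rw [Finset.sum_eq_zero, map_zero]
    intro a _
    rw [smul_comm, (D i).isW.basis_eq, (D i).isW.act' j hj, smul_zero]
  · intro i
    rw [grpEv_res_smul, map_pow, hψX]
    have h1 : ∀ a : ℕ, c.x i ^ a • (D i).isW.e 0 = (D i).isW.e a := by
      intro a
      induction a with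
      | zero => rw [pow_zero, one_smul]
      | succ a ih => rw [pow_succ', mul_smul, ih, (D i).isW.act]
    rw [h1, Ne, LinearEquiv.map_eq_zero_iff]
    have h2 := (D i).isW.basis_eq ⟨q - 1, Nat.sub_lt hq one_pos⟩
    rw [← h2]
    exact (D i).isW.basis.ne_zero _
  · intro i
    rw [← (grpEvRes ψ (D i).W).finrank_eq, Module.finrank_eq_card_basis (D i).isW.basis,
      Fintype.card_fin]
  · intro i Y hY h
    have := (D i).finW'
    exact grpEv_climb ψ hψ (fam2 fun i => (D i).cl) i (D i).W (D i).W' (D i).i₁ (D i).p₁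
      (D i).w₁ (D i).s₁ (D i).i₂ (D i).p₂ (D i).w₂ (D i).s₂ rfl rfl Y hY h
  · rw [← (grpEvTriv (k := k) (GA k q n)).finrank_eq, Module.finrank_self, pow_zero]
  · intro i _ y
    have h1 : X i • y = (show trivObj k (GA k q n) from
      (Coalgebra.counit (R := k) (X i) * (show k from y) : k)) := rfl
    rw [h1, hcu, zero_mul]
    rfl
  · rw [Finset.filter_false_of_mem (fun i _ => Nat.not_lt_zero _), Finset.prod_empty, one_smul,
      Ne, LinearEquiv.map_eq_zero_iff]
    exact one_ne_zero

theorem evGen_bock_q (p s : ℕ) [Fact p.Prime] [CharP k p] (hs : 0 < s) {F : Type u} [CommRing F]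
    [HopfAlgebra k F] [Module.Finite k F] {n : ℕ} (c : Coords k (p ^ s) F n)
    (D : ∀ i, VData (p ^ s) c i) : (fam2 fun i => (D i).cl).EvGen (trivObj k F) := by
  have hp : p.Prime := Fact.out
  have : NeZero (p ^ s) := ⟨pow_ne_zero s hp.ne_zero⟩
  have hnt : Nontrivial F := by
    have h1 : Coalgebra.counit (R := k) (1 : F) = 1 := Bialgebra.counit_one
    refine ⟨⟨1, 0, fun h => ?_⟩⟩
    rw [h, map_zero] at h1
    exact zero_ne_one h1
  have hch : CharP F p := charP_of_injective_algebraMap (algebraMap k F).injective p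
  refine evGen_bock_gen (p ^ s) c (fun i => ?_) D
  rw [add_pow_char_pow, one_pow, c.pow, add_zero]


end

end Pool.Agent.Helper10.FA
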